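import Pool.Agent.H123R3.G.Inv

/-! # The helical flow -/

set_option autoImplicit false

open Set Metric Filter Topology
open scoped ContDiff InnerProductSpace

namespace Pool.Agent.H123R3.G

abbrev E3 := EuclideanSpace ℝ (Fin 3)

/-- linear forms on space -/
noncomputable def L3 (a b c : ℝ) : E3 →L[ℝ] ℝ :=
  a • EuclideanSpace.proj 0 + b • EuclideanSpace.proj 1 + c • EuclideanSpace.proj 2

@[simp] lemma L3_apply (a b c : ℝ) (v : E3) : L3 a b c v = a * v 0 + b * v 1 + c * v 2 := by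
  simp [L3]

lemma L3_ext (f : E3 →L[ℝ] ℝ) {a b c : ℝ} (h : ∀ v, f v = a * v 0 + b * v 1 + c * v 2) :
    f = L3 a b c := by
  ext v
  rw [h, L3_apply]

lemma coord_deriv (i : Fin 3) (X : E3) :
    HasFDerivAt (fun X : E3 => X i) (EuclideanSpace.proj i : E3 →L[ℝ] ℝ) X :=
  (EuclideanSpace.proj i : E3 →L[ℝ] ℝ).hasFDerivAt

/-- squared distance to the axis -/
noncomputable def rr (X : E3) : ℝ := X 0 ^ 2 + X 1 ^ 2
/-- the helical angle -/
noncomputable def ee (X : E3) : ℝ := Real.arctan (X 1 / X 0) + X 2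

lemma rr_deriv (X : E3) : HasFDerivAt rr (L3 (2 * X 0) (2 * X 1) 0) X := by
  have h := ((coord_deriv 0 X).pow 2).add ((coord_deriv 1 X).pow 2)
  refine h.congr_fderiv (L3_ext _ fun v => ?_)
  simp

lemma ee_deriv (X : E3) (hX : 0 < X 0) :
    HasFDerivAt ee (L3 (-X 1 / rr X) (X 0 / rr X) 1) X := by
  have h := (((coord_deriv 1 X).mul ((hasDerivAt_inv hX.ne').comp_hasFDerivAt X
    (coord_deriv 0 X))).arctan).add (coord_deriv 2 X)
  refine (h.congr_fderiv (L3_ext _ fun v => ?_)).congr_of_eventuallyEq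
    (Eventually.of_forall fun z => ?_)
  · have : X 0 ^ 2 + X 1 ^ 2 ≠ 0 := by positivity
    simp [rr]
    field_simp
  · simp [ee, div_eq_mul_inv]

/-- the pressure in helical coordinates -/
structure Sol (d : Data) where
  δ : ℝ
  box : Box d δ
  N : Set (ℝ × ℝ)
  P : ℝ × ℝ → ℝ
  hN : IsOpen N
  h10 : ((1 : ℝ), (0 : ℝ)) ∈ N
  hP1 : P (1, 0) = 1
  hW : ∀ y ∈ N, (y.1, P y) ∈ Wr δ
  hPs : ∀ y ∈ N, ContDiffAt ℝ ∞ P y
  hPd : ∀ y ∈ N, HasFDerivAt P (L2 (QQ d.A d.B y.1 (P y) / (2 * y.1)) √(SS d.A d.B y.1 (P y))) y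

lemma exists_sol (d : Data) : Nonempty (Sol d) := by
  obtain ⟨δ, hb⟩ := exists_box d
  obtain ⟨N, P, h1, h2, h3, h4⟩ := exists_P d hb
  exact ⟨⟨δ, hb, N, P, h1, h2, h3, fun y hy => (h4 y hy).1, fun y hy => (h4 y hy).2.1,
    fun y hy => (h4 y hy).2.2⟩⟩

variable {d : Data} (σ : Sol d)

def dom : Set E3 := {X | 0 < X 0 ∧ (rr X, ee X) ∈ σ.N}

noncomputable def pp (X : E3) : ℝ := σ.P (rr X, ee X)
noncomputable def bX (X : E3) : ℝ := bb d.B (rr X) (pp σ X)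
noncomputable def cX (X : E3) : ℝ := cc d.A (rr X) (pp σ X)
noncomputable def qX (X : E3) : ℝ := QQ d.A d.B (rr X) (pp σ X)
noncomputable def SX (X : E3) : ℝ := SS d.A d.B (rr X) (pp σ X)
noncomputable def sX (X : E3) : ℝ := √(SX σ X)

noncomputable def uX (X : E3) : E3 :=
  !₂[(sX σ X * X 0 - bX σ X * X 1) / rr X, (sX σ X * X 1 + bX σ X * X 0) / rr X, cX σ X]

lemma rr_pos {X : E3} (hX : X ∈ dom σ) : 0 < rr X := by
  have := hX.1
  unfold rr; positivity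

lemma memW {X : E3} (hX : X ∈ dom σ) : (rr X, pp σ X) ∈ Wr σ.δ := σ.hW _ hX.2

lemma memt {X : E3} (hX : X ∈ dom σ) : pp σ X ∈ Ioo (1 - d.ε) (1 + d.ε) :=
  σ.box.t0 _ (memW σ hX).2

lemma SX_pos {X : E3} (hX : X ∈ dom σ) : 0 < SX σ X :=
  σ.box.S0 _ (memW σ hX).1 _ (memW σ hX).2

lemma sX_pos {X : E3} (hX : X ∈ dom σ) : 0 < sX σ X := Real.sqrt_pos.2 (SX_pos σ hX)

lemma sX_sq {X : E3} (hX : X ∈ dom σ) : sX σ X ^ 2 = SX σ X := Real.sq_sqrt (SX_pos σ hX).le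

lemma pp_deriv {X : E3} (hX : X ∈ dom σ) :
    HasFDerivAt (pp σ) (L3 ((qX σ X * X 0 - sX σ X * X 1) / rr X)
      ((qX σ X * X 1 + sX σ X * X 0) / rr X) (sX σ X)) X := by
  have h := (σ.hPd _ hX.2).comp X ((rr_deriv X).prodMk (ee_deriv X hX.1))
  have hr := rr_pos σ hX
  refine h.congr_fderiv (L3_ext _ fun v => ?_)
  simp only [ContinuousLinearMap.comp_apply, ContinuousLinearMap.prod_apply, L2_apply, L3_apply]
  change qX σ X / (2 * rr X) * _ + sX σ X * _ = _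
  field_simp
  ring

lemma bX_deriv {X : E3} (hX : X ∈ dom σ) {p1 p2 p3 : ℝ} (hp : HasFDerivAt (pp σ) (L3 p1 p2 p3) X) :
    HasFDerivAt (bX σ) (L3 (d.B' (pp σ X) * p1 - X 0) (d.B' (pp σ X) * p2 - X 1)
      (d.B' (pp σ X) * p3)) X := by
  have h := ((d.hB _ (memt σ hX)).comp_hasFDerivAt X hp).sub ((rr_deriv X).mul_const (1 / 2))
  refine (h.congr_fderiv (L3_ext _ fun v => ?_)).congr_of_eventuallyEq
    (Eventually.of_forall fun z => ?_)
  · simp
    ring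
  · simp [bX, bb]
    ring

lemma cX_deriv {X : E3} (hX : X ∈ dom σ) {p1 p2 p3 : ℝ} (hp : HasFDerivAt (pp σ) (L3 p1 p2 p3) X) :
    HasFDerivAt (cX σ) (L3 (d.A' (pp σ X) * p1 - X 0) (d.A' (pp σ X) * p2 - X 1)
      (d.A' (pp σ X) * p3)) X := by
  have h := ((d.hA _ (memt σ hX)).comp_hasFDerivAt X hp).sub ((rr_deriv X).mul_const (1 / 2))
  refine (h.congr_fderiv (L3_ext _ fun v => ?_)).congr_of_eventuallyEq
    (Eventually.of_forall fun z => ?_)
  · simp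
    ring
  · simp [cX, cc]
    ring

lemma sX_deriv {X : E3} (hX : X ∈ dom σ) {p1 p2 p3 : ℝ} (hp : HasFDerivAt (pp σ) (L3 p1 p2 p3) X) :
    HasFDerivAt (sX σ) (L3
      ((Sr d (rr X) (pp σ X) * (2 * X 0) + St d (rr X) (pp σ X) * p1) / (2 * sX σ X))
      ((Sr d (rr X) (pp σ X) * (2 * X 1) + St d (rr X) (pp σ X) * p2) / (2 * sX σ X))
      (St d (rr X) (pp σ X) * p3 / (2 * sX σ X))) X := by
  have h0 : HasFDerivAt (fun w : ℝ × ℝ => SS d.A d.B w.1 w.2)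
      (L2 (Sr d (rr X) (pp σ X)) (St d (rr X) (pp σ X))) (rr X, pp σ X) :=
    SS_deriv d (w := (rr X, pp σ X)) (memt σ hX)
  have h1 : HasFDerivAt (fun X => (rr X, pp σ X))
      ((L3 (2 * X 0) (2 * X 1) 0).prod (L3 p1 p2 p3)) X := (rr_deriv X).prodMk hp
  have h : HasFDerivAt (SX σ) ((L2 (Sr d (rr X) (pp σ X)) (St d (rr X) (pp σ X))).comp
      ((L3 (2 * X 0) (2 * X 1) 0).prod (L3 p1 p2 p3))) X :=
    HasFDerivAt.comp (g := fun w : ℝ × ℝ => SS d.A d.B w.1 w.2) X h0 h1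
  have h2 := h.sqrt (SX_pos σ hX).ne'
  refine h2.congr_fderiv (L3_ext _ fun v => ?_)
  have hs := sX_pos σ hX
  rw [_root_.smul_apply]
  change (1 / (2 * sX σ X)) • _ = _
  simp only [ContinuousLinearMap.comp_apply, ContinuousLinearMap.prod_apply, L2_apply, L3_apply,
    smul_eq_mul]
  field_simp
  ring

/-- the differential of a component of a map into space -/
lemma comp_fderiv {u : E3 → E3} {X : E3} (h : DifferentiableAt ℝ u X) {i : Fin 3} {L : E3 →L[ℝ] ℝ}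
    (hL : HasFDerivAt (fun Y => u Y i) L X) (v : E3) : fderiv ℝ u X v i = L v := by
  have h1 : HasFDerivAt (fun Y => u Y i)
      ((EuclideanSpace.proj i : E3 →L[ℝ] ℝ).comp (fderiv ℝ u X)) X :=
    (EuclideanSpace.proj i : E3 →L[ℝ] ℝ).hasFDerivAt.comp X h.hasFDerivAt
  rw [← h1.unique hL]
  simp

lemma quot_deriv {f g : E3 → ℝ} {X : E3} {a b c a' b' c' : ℝ} (hf : HasFDerivAt f (L3 a b c) X)
    (hg : HasFDerivAt g (L3 a' b' c') X) (hX : g X ≠ 0) :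
    HasFDerivAt (fun Y => f Y / g Y) (L3 ((a * g X - f X * a') / g X ^ 2)
      ((b * g X - f X * b') / g X ^ 2) ((c * g X - f X * c') / g X ^ 2)) X := by
  have h : HasFDerivAt (fun Y => f Y * (g Y)⁻¹) _ X := hf.mul ((hasDerivAt_inv hX).comp_hasFDerivAt X hg)
  refine (h.congr_fderiv (L3_ext _ fun v => ?_)).congr_of_eventuallyEq
    (Eventually.of_forall fun z => ?_)
  · simp
    field_simp
    ring
  · simp [div_eq_mul_inv]

lemma num_deriv {f g : E3 → ℝ} {X : E3} {a b c a' b' c' : ℝ} (hf : HasFDerivAt f (L3 a b c) X)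
    (hg : HasFDerivAt g (L3 a' b' c') X) :
    HasFDerivAt (fun Y : E3 => f Y * Y 0 - g Y * Y 1) (L3 (a * X 0 + f X - a' * X 1)
      (b * X 0 - b' * X 1 - g X) (c * X 0 - c' * X 1)) X := by
  have h := (hf.mul (coord_deriv 0 X)).sub (hg.mul (coord_deriv 1 X))
  refine h.congr_fderiv (L3_ext _ fun v => ?_)
  simp
  ring

lemma num_deriv' {f g : E3 → ℝ} {X : E3} {a b c a' b' c' : ℝ} (hf : HasFDerivAt f (L3 a b c) X)
    (hg : HasFDerivAt g (L3 a' b' c') X) :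
    HasFDerivAt (fun Y : E3 => f Y * Y 1 + g Y * Y 0) (L3 (a * X 1 + a' * X 0 + g X)
      (b * X 1 + f X + b' * X 0) (c * X 1 + c' * X 0)) X := by
  have h := (hf.mul (coord_deriv 1 X)).add (hg.mul (coord_deriv 0 X))
  refine h.congr_fderiv (L3_ext _ fun v => ?_)
  simp
  ring

/-! ### smoothness -/

lemma rr_smooth (X : E3) : ContDiffAt ℝ ∞ rr X := by
  have h0 : ContDiffAt ℝ ∞ (fun X : E3 => X 0) X := (EuclideanSpace.proj 0 : E3 →L[ℝ] ℝ).contDiff.contDiffAt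
  have h1 : ContDiffAt ℝ ∞ (fun X : E3 => X 1) X := (EuclideanSpace.proj 1 : E3 →L[ℝ] ℝ).contDiff.contDiffAt
  exact (h0.pow 2).add (h1.pow 2)

lemma ee_smooth {X : E3} (hX : 0 < X 0) : ContDiffAt ℝ ∞ ee X := by
  have h0 : ContDiffAt ℝ ∞ (fun X : E3 => X 0) X := (EuclideanSpace.proj 0 : E3 →L[ℝ] ℝ).contDiff.contDiffAt
  have h1 : ContDiffAt ℝ ∞ (fun X : E3 => X 1) X := (EuclideanSpace.proj 1 : E3 →L[ℝ] ℝ).contDiff.contDiffAt
  have h2 : ContDiffAt ℝ ∞ (fun X : E3 => X 2) X := (EuclideanSpace.proj 2 : E3 →L[ℝ] ℝ).contDiff.contDiffAt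
  exact (h1.div h0 hX.ne').arctan.add h2

lemma pp_smooth {X : E3} (hX : X ∈ dom σ) : ContDiffAt ℝ ∞ (pp σ) X :=
  (σ.hPs _ hX.2).comp X ((rr_smooth X).prodMk (ee_smooth hX.1))

lemma A_smooth {X : E3} (hX : X ∈ dom σ) : ContDiffAt ℝ ∞ (fun X => d.A (pp σ X)) X :=
  ((d.hAs _ (memt σ hX)).contDiffAt (isOpen_Ioo.mem_nhds (memt σ hX))).comp X (pp_smooth σ hX)

lemma B_smooth {X : E3} (hX : X ∈ dom σ) : ContDiffAt ℝ ∞ (fun X => d.B (pp σ X)) X :=
  ((d.hBs _ (memt σ hX)).contDiffAt (isOpen_Ioo.mem_nhds (memt σ hX))).comp X (pp_smooth σ hX)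

lemma bX_smooth {X : E3} (hX : X ∈ dom σ) : ContDiffAt ℝ ∞ (bX σ) X :=
  (B_smooth σ hX).sub ((rr_smooth X).div_const 2)

lemma cX_smooth {X : E3} (hX : X ∈ dom σ) : ContDiffAt ℝ ∞ (cX σ) X :=
  (A_smooth σ hX).sub ((rr_smooth X).div_const 2)

lemma sX_smooth {X : E3} (hX : X ∈ dom σ) : ContDiffAt ℝ ∞ (sX σ) X := by
  have h : ContDiffAt ℝ ∞ (SX σ) X :=
    (((rr_smooth X).mul (contDiffAt_const.mul (pp_smooth σ hX))).sub ((bX_smooth σ hX).pow 2)).sub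
      ((rr_smooth X).mul ((cX_smooth σ hX).pow 2))
  exact h.sqrt (SX_pos σ hX).ne'

lemma uX_smooth {X : E3} (hX : X ∈ dom σ) : ContDiffAt ℝ ∞ (uX σ) X := by
  have h0 : ContDiffAt ℝ ∞ (fun X : E3 => X 0) X := (EuclideanSpace.proj 0 : E3 →L[ℝ] ℝ).contDiff.contDiffAt
  have h1 : ContDiffAt ℝ ∞ (fun X : E3 => X 1) X := (EuclideanSpace.proj 1 : E3 →L[ℝ] ℝ).contDiff.contDiffAt
  have hs := sX_smooth σ hX
  have hb := bX_smooth σ hX
  rw [contDiffAt_euclidean]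
  intro i
  fin_cases i
  · exact ((hs.mul h0).sub (hb.mul h1)).div (rr_smooth X) (rr_pos σ hX).ne'
  · exact ((hs.mul h1).add (hb.mul h0)).div (rr_smooth X) (rr_pos σ hX).ne'
  · exact cX_smooth σ hX

/-! ### the equations -/

lemma gradient_coord {f : E3 → ℝ} {X : E3} {a b c : ℝ} (h : HasFDerivAt f (L3 a b c) X) :
    gradient f X = !₂[a, b, c] := by
  apply HasGradientAt.gradient
  rw [hasGradientAt_iff_hasFDerivAt]
  refine h.congr_fderiv ?_
  ext v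
  simp [Fin.sum_univ_three, PiLp.inner_apply]
  ring

lemma alg_mom0 {x y r s b c q p Sr : ℝ} (hr : r ≠ 0)
    (h1 : q = -b - r * c) (h2 : s ^ 2 = r * (3 * p) - b ^ 2 - r * c ^ 2)
    (h3 : Sr = 3 * p + b - c ^ 2 + r * c) :
    (Sr * x + s * ((s * x - b * y) / r) - (-s) * y - b * ((s * y + b * x) / r)) / r
      - (s * x - b * y) * (2 * s) / r ^ 2 + (q * x - s * y) / r = 0 := by
  field_simp
  subst h1 h3
  linear_combination (-x) * h2

lemma alg_mom1 {x y r s b c q p Sr : ℝ} (hr : r ≠ 0)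
    (h1 : q = -b - r * c) (h2 : s ^ 2 = r * (3 * p) - b ^ 2 - r * c ^ 2)
    (h3 : Sr = 3 * p + b - c ^ 2 + r * c) :
    (Sr * y + s * ((s * y + b * x) / r) + (-s) * x + b * ((s * x - b * y) / r)) / r
      - (s * y + b * x) * (2 * s) / r ^ 2 + (q * y + s * x) / r = 0 := by
  field_simp
  subst h1 h3
  linear_combination (-y) * h2

lemma alg_rho {x y r s b : ℝ} (hr : r ≠ 0) (h : r = x ^ 2 + y ^ 2) :
    2 * x * ((s * x - b * y) / r) + 2 * y * ((s * y + b * x) / r) = 2 * s := by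
  field_simp
  rw [h]; ring

lemma alg_p {x y r s b c q : ℝ} (hr : r ≠ 0) (h : r = x ^ 2 + y ^ 2) (h1 : q = -b - r * c) :
    (q * x - s * y) / r * ((s * x - b * y) / r) + (q * y + s * x) / r * ((s * y + b * x) / r)
      + s * c = 0 := by
  field_simp
  subst h1
  linear_combination (s * c * r) * h

lemma alg_div {x y r s b p1 p2 A' B' Sr St q : ℝ} (hr : r ≠ 0) (hs : s ≠ 0)
    (h : r = x ^ 2 + y ^ 2) (h1 : x * p1 + y * p2 = q) (h2 : x * p2 - y * p1 = s)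
    (hid : 2 * s ^ 2 * (B' + r * A') + 2 * r * Sr + q * St = 0) :
    (((Sr * (2 * x) + St * p1) / (2 * s) * x + s - (B' * p1 - x) * y) * r
        - (s * x - b * y) * (2 * x)) / r ^ 2
      + (((Sr * (2 * y) + St * p2) / (2 * s) * y + s + (B' * p2 - y) * x) * r
        - (s * y + b * x) * (2 * y)) / r ^ 2 + A' * s = 0 := by
  have h3 : 2 * s * ((Sr * (2 * x) + St * p1) / (2 * s) * x +
      (Sr * (2 * y) + St * p2) / (2 * s) * y) = Sr * 2 * r + St * q := by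
    field_simp
    linear_combination (-2 * Sr) * h + St * h1
  have h4 : 2 * s * ((((Sr * (2 * x) + St * p1) / (2 * s) * x + s - (B' * p1 - x) * y) * r
        - (s * x - b * y) * (2 * x))
      + (((Sr * (2 * y) + St * p2) / (2 * s) * y + s + (B' * p2 - y) * x) * r
        - (s * y + b * x) * (2 * y)) + r ^ 2 * (A' * s)) = 0 := by
    linear_combination r * h3 + r * 2 * s * B' * h2 + 4 * s ^ 2 * h + r * hid
  have h5 := (mul_eq_zero.1 h4).resolve_left (by positivity)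
  rw [← add_div, div_add' _ _ _ (by positivity), div_eq_zero_iff]
  left
  linear_combination h5

lemma alg_S {x y s Sr St p1 p2 p3 v0 v1 v2 : ℝ} (hs : s ≠ 0) (aρ : 2 * x * v0 + 2 * y * v1 = 2 * s)
    (ap : p1 * v0 + p2 * v1 + p3 * v2 = 0) :
    (Sr * (2 * x) + St * p1) / (2 * s) * v0 + (Sr * (2 * y) + St * p2) / (2 * s) * v1
      + St * p3 / (2 * s) * v2 = Sr := by
  field_simp
  linear_combination Sr * aρ + St * ap

lemma alg_B {x y s B' p1 p2 p3 v0 v1 v2 : ℝ} (aρ : 2 * x * v0 + 2 * y * v1 = 2 * s)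
    (ap : p1 * v0 + p2 * v1 + p3 * v2 = 0) :
    (B' * p1 - x) * v0 + (B' * p2 - y) * v1 + B' * p3 * v2 = -s := by
  linear_combination (-1 / 2) * aρ + B' * ap

lemma alg_u0 {x y r s b f S1 S2 S3 B1 B2 B3 v0 v1 v2 Sr : ℝ} (hr : r ≠ 0)
    (aρ : 2 * x * v0 + 2 * y * v1 = 2 * s) (hS : S1 * v0 + S2 * v1 + S3 * v2 = Sr)
    (hB : B1 * v0 + B2 * v1 + B3 * v2 = -s) :
    ((S1 * x + s - B1 * y) * r - f * (2 * x)) / r ^ 2 * v0
      + ((S2 * x - B2 * y - b) * r - f * (2 * y)) / r ^ 2 * v1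
      + ((S3 * x - B3 * y) * r - f * 0) / r ^ 2 * v2
      = (Sr * x + s * v0 - (-s) * y - b * v1) / r - f * (2 * s) / r ^ 2 := by
  field_simp
  linear_combination (-f) * aρ + r * x * hS - r * y * hB

lemma alg_u1 {x y r s b f S1 S2 S3 B1 B2 B3 v0 v1 v2 Sr : ℝ} (hr : r ≠ 0)
    (aρ : 2 * x * v0 + 2 * y * v1 = 2 * s) (hS : S1 * v0 + S2 * v1 + S3 * v2 = Sr)
    (hB : B1 * v0 + B2 * v1 + B3 * v2 = -s) :
    ((S1 * y + B1 * x + b) * r - f * (2 * x)) / r ^ 2 * v0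
      + ((S2 * y + s + B2 * x) * r - f * (2 * y)) / r ^ 2 * v1
      + ((S3 * y + B3 * x) * r - f * 0) / r ^ 2 * v2
      = (Sr * y + s * v1 + (-s) * x + b * v0) / r - f * (2 * s) / r ^ 2 := by
  field_simp
  linear_combination (-f) * aρ + r * y * hS + r * x * hB

/-- all the algebra -/
theorem euler_at {X : E3} (hX : X ∈ dom σ) :
    fderiv ℝ (uX σ) X (uX σ X) + gradient (pp σ) X = 0 ∧
    ∑ i : Fin 3, fderiv ℝ (uX σ) X (EuclideanSpace.single i 1) i = 0 ∧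
    ⟪uX σ X, gradient (pp σ) X⟫_ℝ = 0 ∧ gradient (pp σ) X ≠ 0 := by
  have hρ := rr_pos σ hX
  have hs := sX_pos σ hX
  have hss := sX_sq σ hX
  have hp := pp_deriv σ hX
  have hg := gradient_coord hp
  have hb := bX_deriv σ hX hp
  have hc := cX_deriv σ hX hp
  have hsd := sX_deriv σ hX hp
  have hud : DifferentiableAt ℝ (uX σ) X := (uX_smooth σ hX).differentiableAt (by norm_num)
  have hu0 := comp_fderiv (i := 0) hud (quot_deriv (num_deriv hsd hb) (rr_deriv X) hρ.ne')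
  have hu1 := comp_fderiv (i := 1) hud (quot_deriv (num_deriv' hsd hb) (rr_deriv X) hρ.ne')
  have hu2 := comp_fderiv (i := 2) hud hc
  have hid := ident d (ρ := rr X) (memt σ hX)
  have e1 : SS d.A d.B (rr X) (pp σ X) = sX σ X ^ 2 := hss.symm
  have e2 : QQ d.A d.B (rr X) (pp σ X) = qX σ X := rfl
  rw [e1, e2] at hid
  have e3 : qX σ X = -bX σ X - rr X * cX σ X := rfl
  have e4 : sX σ X ^ 2 = rr X * (3 * pp σ X) - bX σ X ^ 2 - rr X * cX σ X ^ 2 := hss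
  have e5 : Sr d (rr X) (pp σ X) = 3 * pp σ X + bX σ X - cX σ X ^ 2 + rr X * cX σ X := rfl
  have e6 : rr X = X 0 ^ 2 + X 1 ^ 2 := rfl
  have u0 : uX σ X 0 = (sX σ X * X 0 - bX σ X * X 1) / rr X := rfl
  have u1 : uX σ X 1 = (sX σ X * X 1 + bX σ X * X 0) / rr X := rfl
  have u2 : uX σ X 2 = cX σ X := rfl
  have g0 : gradient (pp σ) X 0 = (qX σ X * X 0 - sX σ X * X 1) / rr X := by rw [hg]; rfl
  have g1 : gradient (pp σ) X 1 = (qX σ X * X 1 + sX σ X * X 0) / rr X := by rw [hg]; rfl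
  have g2 : gradient (pp σ) X 2 = sX σ X := by rw [hg]; rfl
  have aρ := alg_rho (s := sX σ X) (b := bX σ X) hρ.ne' e6
  have ap := alg_p (s := sX σ X) hρ.ne' e6 e3
  have m0 := alg_mom0 (x := X 0) (y := X 1) hρ.ne' e3 e4 e5
  have m1 := alg_mom1 (x := X 0) (y := X 1) hρ.ne' e3 e4 e5
  rw [← u0, ← u1] at aρ ap m0 m1
  refine ⟨?_, ?_, ?_, ?_⟩
  · ext i
    have ap' : (qX σ X * X 0 - sX σ X * X 1) / rr X * uX σ X 0 +
      (qX σ X * X 1 + sX σ X * X 0) / rr X * uX σ X 1 + sX σ X * uX σ X 2 = 0 := by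
      rw [u2]; exact ap
    have hS := alg_S (Sr := Sr d (rr X) (pp σ X)) (St := St d (rr X) (pp σ X)) hs.ne' aρ ap'
    have hB := alg_B (B' := d.B' (pp σ X)) aρ ap'
    have hA := alg_B (B' := d.A' (pp σ X)) aρ ap'
    fin_cases i
    · change fderiv ℝ (uX σ) X (uX σ X) 0 + gradient (pp σ) X 0 = 0
      rw [hu0, g0, L3_apply]
      rw [alg_u0 hρ.ne' aρ hS hB]
      exact m0
    · change fderiv ℝ (uX σ) X (uX σ X) 1 + gradient (pp σ) X 1 = 0
      rw [hu1, g1, L3_apply]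
      rw [alg_u1 hρ.ne' aρ hS hB]
      exact m1
    · change fderiv ℝ (uX σ) X (uX σ X) 2 + gradient (pp σ) X 2 = 0
      rw [hu2, g2, L3_apply, hA]
      ring
  · rw [Fin.sum_univ_three, hu0, hu1, hu2]
    have h1 : X 0 * ((qX σ X * X 0 - sX σ X * X 1) / rr X) +
        X 1 * ((qX σ X * X 1 + sX σ X * X 0) / rr X) = qX σ X := by
      field_simp
      rw [e6]; ring
    have h2 : X 0 * ((qX σ X * X 1 + sX σ X * X 0) / rr X) -
        X 1 * ((qX σ X * X 0 - sX σ X * X 1) / rr X) = sX σ X := by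
      field_simp
      rw [e6]; ring
    have h3 := alg_div (b := bX σ X) hρ.ne' hs.ne' e6 h1 h2 hid
    rw [← h3]
    simp
  · rw [PiLp.inner_apply, Fin.sum_univ_three, g0, g1, g2, u2]
    simp only [RCLike.inner_apply, conj_trivial]
    linear_combination ap
  · intro h
    have := g2
    rw [h] at this
    simp at this
    linarith

end Pool.Agent.H123R3.G
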