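import Pool.Agent.H123R3.G.Pot

/-! # The potential, its inverse and the pressure in the plane -/

set_option autoImplicit false

open Set Metric Filter Topology
open scoped ContDiff

namespace Pool.Agent.H123R3.G

variable (d : Data)

lemma Wr_open (δ : ℝ) : IsOpen (Wr δ) := isOpen_Ioo.prod isOpen_Ioo

lemma Wr_convex (δ : ℝ) : Convex ℝ (Wr δ) := (convex_Ioo _ _).prod (convex_Ioo _ _)

lemma SS_smooth {δ : ℝ} (hb : Box d δ) :
    ContDiffOn ℝ ∞ (fun w : ℝ × ℝ => SS d.A d.B w.1 w.2) (Wr δ) := by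
  have hA : ContDiffOn ℝ ∞ (fun w : ℝ × ℝ => d.A w.2) (Wr δ) :=
    d.hAs.comp contDiffOn_snd fun w hw => hb.t0 _ hw.2
  have hB : ContDiffOn ℝ ∞ (fun w : ℝ × ℝ => d.B w.2) (Wr δ) :=
    d.hBs.comp contDiffOn_snd fun w hw => hb.t0 _ hw.2
  have h1 : ContDiffOn ℝ ∞ (fun w : ℝ × ℝ => w.1) (Wr δ) := contDiffOn_fst
  have h2 : ContDiffOn ℝ ∞ (fun w : ℝ × ℝ => w.2) (Wr δ) := contDiffOn_snd
  unfold SS bb cc
  fun_prop

lemma QQ_smooth {δ : ℝ} (hb : Box d δ) :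
    ContDiffOn ℝ ∞ (fun w : ℝ × ℝ => QQ d.A d.B w.1 w.2) (Wr δ) := by
  have hA : ContDiffOn ℝ ∞ (fun w : ℝ × ℝ => d.A w.2) (Wr δ) :=
    d.hAs.comp contDiffOn_snd fun w hw => hb.t0 _ hw.2
  have hB : ContDiffOn ℝ ∞ (fun w : ℝ × ℝ => d.B w.2) (Wr δ) :=
    d.hBs.comp contDiffOn_snd fun w hw => hb.t0 _ hw.2
  have h1 : ContDiffOn ℝ ∞ (fun w : ℝ × ℝ => w.1) (Wr δ) := contDiffOn_fst
  unfold QQ bb cc
  fun_prop

lemma bf_smooth {δ : ℝ} (hb : Box d δ) : ContDiffOn ℝ ∞ (bf d) (Wr δ) := by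
  have h1 := (SS_smooth d hb).sqrt fun w hw => (hb.S0 _ hw.1 _ hw.2).ne'
  exact h1.inv fun w hw => (Real.sqrt_pos.2 (hb.S0 _ hw.1 _ hw.2)).ne'

lemma aa_smooth {δ : ℝ} (hb : Box d δ) : ContDiffOn ℝ ∞ (aa d) (Wr δ) := by
  have h1 : ContDiffOn ℝ ∞ (fun w : ℝ × ℝ => 2 * w.1) (Wr δ) := contDiffOn_const.mul contDiffOn_fst
  have h2 := h1.inv fun w hw => by
    have := hb.ρ0 _ hw.1
    positivity
  exact ((QQ_smooth d hb).neg.mul h2).mul (bf_smooth d hb)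

lemma exists_E {δ : ℝ} (hb : Box d δ) : ∃ E : ℝ × ℝ → ℝ,
    (∀ w ∈ Wr δ, HasFDerivAt E (L2 (aa d w) (bf d w)) w) ∧ ContDiffOn ℝ ∞ E (Wr δ) := by
  have hω : ∀ w ∈ Wr δ, ∃ α β γ : ℝ, HasFDerivAt (fun w => L2 (aa d w) (bf d w))
      ((L2 α β).smulRight (ContinuousLinearMap.fst ℝ ℝ ℝ) +
        (L2 β γ).smulRight (ContinuousLinearMap.snd ℝ ℝ ℝ)) w := by
    intro w hw
    obtain ⟨α, β, γ, h1, h2⟩ := form_deriv d hb hw
    exact ⟨α, β, γ, (h1.smul_const (ContinuousLinearMap.fst ℝ ℝ ℝ)).add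
      (h2.smul_const (ContinuousLinearMap.snd ℝ ℝ ℝ))⟩
  have hdiff : DifferentiableOn ℝ (fun w => L2 (aa d w) (bf d w)) (Wr δ) := fun w hw => by
    obtain ⟨α, β, γ, h⟩ := hω w hw
    exact h.differentiableAt.differentiableWithinAt
  obtain ⟨E, hE⟩ := (Wr_convex δ).exists_forall_hasFDerivAt_of_fderiv_symmetric (Wr_open δ)
    hdiff (fun w hw x y => by
      obtain ⟨α, β, γ, h⟩ := hω w hw
      rw [h.fderiv]
      simp
      ring)
  refine ⟨E, hE, ?_⟩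
  rw [contDiffOn_infty_iff_fderiv_of_isOpen (Wr_open δ)]
  refine ⟨fun w hw => (hE w hw).differentiableAt.differentiableWithinAt, ?_⟩
  have : ContDiffOn ℝ ∞ (fun w => L2 (aa d w) (bf d w)) (Wr δ) :=
    ((aa_smooth d hb).smul contDiffOn_const).add ((bf_smooth d hb).smul contDiffOn_const)
  exact this.congr fun w hw => (hE w hw).fderiv

/-- triangular maps -/
noncomputable def tri (a b : ℝ) (hb : b ≠ 0) : (ℝ × ℝ) ≃L[ℝ] (ℝ × ℝ) :=
  ContinuousLinearEquiv.equivOfInverse ((ContinuousLinearMap.fst ℝ ℝ ℝ).prod (L2 a b))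
    ((ContinuousLinearMap.fst ℝ ℝ ℝ).prod (L2 (-a / b) (1 / b)))
    (fun v => by
      ext
      · simp
      · simp
        field_simp
        ring)
    (fun v => by
      ext
      · simp
      · simp
        field_simp
        ring)

theorem exists_P {δ : ℝ} (hb : Box d δ) : ∃ (N : Set (ℝ × ℝ)) (P : ℝ × ℝ → ℝ), IsOpen N ∧
    ((1 : ℝ), (0 : ℝ)) ∈ N ∧ P (1, 0) = 1 ∧ ∀ y ∈ N, (y.1, P y) ∈ Wr δ ∧ ContDiffAt ℝ ∞ P y ∧
      HasFDerivAt P (L2 (QQ d.A d.B y.1 (P y) / (2 * y.1)) √(SS d.A d.B y.1 (P y))) y := by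
  obtain ⟨E, hE, hEs⟩ := exists_E d hb
  have h11 : ((1 : ℝ), (1 : ℝ)) ∈ Wr δ := ⟨one_mem hb.pos, one_mem hb.pos⟩
  have hbf : ∀ w ∈ Wr δ, bf d w ≠ 0 := fun w hw =>
    inv_ne_zero (Real.sqrt_pos.2 (hb.S0 _ hw.1 _ hw.2)).ne'
  set T : ℝ × ℝ → ℝ × ℝ := fun w => (w.1, E w - E (1, 1)) with hT
  have hTs : ∀ w ∈ Wr δ, ContDiffAt ℝ ∞ T w := fun w hw =>
    contDiffAt_fst.prodMk (((hEs w hw).contDiffAt ((Wr_open δ).mem_nhds hw)).sub contDiffAt_const)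
  have hT' : ∀ w (hw : w ∈ Wr δ), HasFDerivAt T
      ((tri (aa d w) (bf d w) (hbf w hw) : (ℝ × ℝ) ≃L[ℝ] (ℝ × ℝ)) : ℝ × ℝ →L[ℝ] ℝ × ℝ) w := by
    intro w hw
    have := (hasFDerivAt_fst (𝕜 := ℝ) (p := w)).prodMk ((hE w hw).sub_const (E (1, 1)))
    exact this
  set e := (hTs _ h11).toOpenPartialHomeomorph T (hT' _ h11) (by norm_num) with he
  have hcoe : ∀ w, e w = T w := fun w => rfl
  have h1 : ((1 : ℝ), (1 : ℝ)) ∈ e.source :=
    ContDiffAt.mem_toOpenPartialHomeomorph_source (hTs _ h11) (hT' _ h11) (by norm_num)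
  have h2 : e (1, 1) = (1, 0) := by rw [hcoe, hT]; simp
  have h3 : e.symm (1, 0) = (1, 1) := by rw [← h2, e.left_inv h1]
  refine ⟨e.target ∩ e.symm ⁻¹' Wr δ, fun y => (e.symm y).2,
    e.isOpen_inter_preimage_symm (Wr_open δ), ⟨?_, ?_⟩, ?_, ?_⟩
  · rw [← h2]; exact e.map_source h1
  · change e.symm (1, 0) ∈ Wr δ
    rw [h3]; exact h11
  · change (e.symm (1, 0)).2 = 1
    rw [h3]
  · rintro y ⟨hy, hyW⟩
    have e1 : e (e.symm y) = y := e.right_inv hy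
    have e2 : (e.symm y).1 = y.1 := by
      have := congrArg Prod.fst e1
      exact this
    have e3 : (y.1, (e.symm y).2) = e.symm y := by rw [← e2]
    have hW : e.symm y ∈ Wr δ := hyW
    refine ⟨by simp only; rw [e3]; exact hW, ?_, ?_⟩
    · exact contDiff_snd.contDiffAt.comp y (e.contDiffAt_symm hy (hT' _ hW) (hTs _ hW))
    · have h5 := e.hasFDerivAt_symm hy (hT' _ hW)
      have h6 : HasFDerivAt (fun y => (e.symm y).2) _ y :=
        (ContinuousLinearMap.snd ℝ ℝ ℝ).hasFDerivAt.comp y h5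
      refine h6.congr_fderiv ?_
      have hρ := hb.ρ0 _ hW.1
      have hS := hb.S0 _ hW.1 _ hW.2
      have hs : 0 < √(SS d.A d.B (e.symm y).1 (e.symm y).2) := Real.sqrt_pos.2 hS
      have hb0 := hbf _ hW
      simp only
      rw [← e2]
      have e4 : ((tri (aa d (e.symm y)) (bf d (e.symm y)) hb0).symm : ℝ × ℝ →L[ℝ] ℝ × ℝ) =
        (ContinuousLinearMap.fst ℝ ℝ ℝ).prod
          (L2 (-aa d (e.symm y) / bf d (e.symm y)) (1 / bf d (e.symm y))) := rfl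
      rw [e4]
      ext
      · simp [aa, bf]
        field_simp
      · simp [bf]

end Pool.Agent.H123R3.G
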