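import Pool.Agent.H123R3.G.Flow

/-! # The flow is not axisymmetric -/

set_option autoImplicit false

open Set Metric Filter Topology Module
open scoped ContDiff InnerProductSpace

namespace Pool.Agent.H123R3.G

/-! ### rotations -/

/-- the reflection in the plane orthogonal to `ν` -/
noncomputable def rf (ν : E3) : E3 ≃ₗᵢ[ℝ] E3 := (ℝ ∙ ν)ᗮ.reflection

lemma rf_apply {ν : E3} (hν : ‖ν‖ = 1) (v : E3) : rf ν v = v - (2 * ⟪ν, v⟫_ℝ) • ν := by
  unfold rf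
  rw [Submodule.reflection_orthogonal_apply, Submodule.reflection_singleton_apply, hν]
  simp
  module

lemma rf_det {ν : E3} (hν : ‖ν‖ = 1) :
    LinearMap.det ((rf ν).toLinearEquiv : E3 →ₗ[ℝ] E3) = -1 := by
  have h0 : ν ≠ 0 := by
    intro h; rw [h] at hν; simp at hν
  have := Submodule.det_reflection (𝕜 := ℝ) (K := (ℝ ∙ ν)ᗮ)
  rw [Submodule.orthogonal_orthogonal, finrank_span_singleton h0, pow_one] at this
  exact this

/-- the product of two reflections, as an affine map -/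
noncomputable def rot (c ν ν' : E3) : E3 ≃ᵃⁱ[ℝ] E3 :=
  (AffineIsometryEquiv.vaddConst ℝ c).symm.trans
    (((rf ν).trans (rf ν')).toAffineIsometryEquiv.trans (AffineIsometryEquiv.vaddConst ℝ c))

lemma rot_apply (c ν ν' x : E3) : rot c ν ν' x = rf ν' (rf ν (x - c)) + c := rfl

lemma rot_det {c ν ν' : E3} (hν : ‖ν‖ = 1) (hν' : ‖ν'‖ = 1) :
    LinearMap.det ((rot c ν ν').linearIsometryEquiv.toLinearEquiv : E3 →ₗ[ℝ] E3) = 1 := by
  have h1 : ((rot c ν ν').linearIsometryEquiv.toLinearEquiv : E3 →ₗ[ℝ] E3) =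
      ((rf ν').toLinearEquiv : E3 →ₗ[ℝ] E3) ∘ₗ ((rf ν).toLinearEquiv : E3 →ₗ[ℝ] E3) := rfl
  rw [h1, LinearMap.det_comp, rf_det hν, rf_det hν']
  norm_num

lemma rot_fix {c ν ν' w : E3} (hν : ‖ν‖ = 1) (hν' : ‖ν'‖ = 1) (h : ⟪ν, w⟫_ℝ = 0)
    (h' : ⟪ν', w⟫_ℝ = 0) (t : ℝ) : rot c ν ν' (c + t • w) = c + t • w := by
  rw [rot_apply, rf_apply hν, rf_apply hν']
  simp [inner_smul_right, h, h', add_comm]

lemma exists_frame {w : E3} (hw : w ≠ 0) : ∃ n m : E3, ‖n‖ = 1 ∧ ‖m‖ = 1 ∧ ⟪n, m⟫_ℝ = 0 ∧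
    ⟪n, w⟫_ℝ = 0 ∧ ⟪m, w⟫_ℝ = 0 := by
  have hf : finrank ℝ (ℝ ∙ w)ᗮ = 2 := by
    have : Fact (finrank ℝ E3 = 2 + 1) := ⟨by simp⟩
    exact Submodule.finrank_orthogonal_span_singleton hw
  set b := (stdOrthonormalBasis ℝ (ℝ ∙ w)ᗮ).reindex (finCongr hf) with hb
  have ho := b.orthonormal
  refine ⟨b 0, b 1, ?_, ?_, ?_, ?_, ?_⟩
  · exact ho.1 0
  · exact ho.1 1
  · exact ho.2 (show (0 : Fin 2) ≠ 1 by decide)
  · have := (b 0).2
    rw [Submodule.mem_orthogonal_singleton_iff_inner_left] at this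
    exact this
  · have := (b 1).2
    rw [Submodule.mem_orthogonal_singleton_iff_inner_left] at this
    exact this

/-- infinitesimal consequence of invariance under all rotations about a line -/
lemma infinitesimal {p : E3 → ℝ} {U : Set E3} (hU : IsOpen U) {c n m : E3} (hn : ‖n‖ = 1)
    (hm : ‖m‖ = 1) (hnm : ⟪n, m⟫_ℝ = 0)
    (H : ∀ ν ν' : E3, ‖ν‖ = 1 → ‖ν'‖ = 1 → ν ∈ Submodule.span ℝ {n, m} →
      ν' ∈ Submodule.span ℝ {n, m} → ∀ x ∈ U, rot c ν ν' x ∈ U → p (rot c ν ν' x) = p x)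
    {x : E3} (hx : x ∈ U) {p' : E3 →L[ℝ] ℝ} (hp : HasFDerivAt p p' x) :
    ⟪n, x - c⟫_ℝ * p' m - ⟪m, x - c⟫_ℝ * p' n = 0 := by
  set v := x - c with hv
  set v' := v - (2 * ⟪n, v⟫_ℝ) • n with hv'
  have hnn : ⟪n, n⟫_ℝ = 1 := by rw [real_inner_self_eq_norm_sq, hn]; norm_num
  have hmm : ⟪m, m⟫_ℝ = 1 := by rw [real_inner_self_eq_norm_sq, hm]; norm_num
  have hmn : ⟪m, n⟫_ℝ = 0 := by rw [real_inner_comm]; exact hnm
  set N : ℝ → E3 := fun t => Real.cos t • n + Real.sin t • m with hN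
  have hN1 : ∀ t, ‖N t‖ = 1 := by
    intro t
    have : ‖N t‖ ^ 2 = 1 := by
      rw [← real_inner_self_eq_norm_sq, hN]
      simp only [inner_add_left, inner_add_right, inner_smul_left, inner_smul_right, hnn, hmm, hnm,
        hmn, conj_trivial]
      nlinarith [Real.sin_sq_add_cos_sq t]
    have h0 := norm_nonneg (N t)
    nlinarith
  have hN0 : N 0 = n := by simp [hN]
  have hNs : ∀ t, N t ∈ Submodule.span ℝ {n, m} := by
    intro t
    apply Submodule.add_mem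
    · exact Submodule.smul_mem _ _ (Submodule.subset_span (by simp))
    · exact Submodule.smul_mem _ _ (Submodule.subset_span (by simp))
  have hNd : HasDerivAt N m 0 := by
    have h1 : HasDerivAt N _ 0 :=
      ((Real.hasDerivAt_cos 0).smul_const n).add ((Real.hasDerivAt_sin 0).smul_const m)
    refine h1.congr_deriv ?_
    simp
  set f : ℝ → E3 := fun t => rot c n (N t) x with hf
  have hfe : f = fun t => v' - (2 * ⟪N t, v'⟫_ℝ) • N t + c := by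
    funext t
    rw [hf]
    simp only
    rw [rot_apply, rf_apply hn, rf_apply (hN1 t)]
  have e1 : ⟪m, v'⟫_ℝ = ⟪m, v⟫_ℝ := by rw [hv', inner_sub_right, inner_smul_right, hmn]; ring
  have e2 : ⟪n, v'⟫_ℝ = -⟪n, v⟫_ℝ := by rw [hv', inner_sub_right, inner_smul_right, hnn]; ring
  have hf0 : f 0 = x := by
    rw [hfe]
    simp only [hN0]
    rw [e2, hv', hv]
    module
  have hin : HasDerivAt (fun t => ⟪N t, v'⟫_ℝ) ⟪m, v'⟫_ℝ 0 := by
    have := hNd.inner ℝ (hasDerivAt_const (0 : ℝ) v')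
    simpa using this
  have hfd : HasDerivAt f ((2 * ⟪n, v⟫_ℝ) • m - (2 * ⟪m, v⟫_ℝ) • n) 0 := by
    rw [hfe]
    have h1 := (((hasDerivAt_const (0 : ℝ) v').sub ((hin.const_mul 2).smul hNd))).add_const c
    refine h1.congr_deriv ?_
    rw [hN0, e1, e2]
    module
  have hmem : ∀ᶠ t in 𝓝 (0 : ℝ), f t ∈ U :=
    hfd.continuousAt.eventually_mem (hU.mem_nhds (by rw [hf0]; exact hx))
  have hconst : (fun t => p (f t)) =ᶠ[𝓝 0] fun _ => p x := by
    filter_upwards [hmem] with t ht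
    exact H n (N t) hn (hN1 t) (Submodule.subset_span (by simp)) (hNs t) x hx ht
  have h1 : HasDerivAt (fun t => p (f t)) (p' ((2 * ⟪n, v⟫_ℝ) • m - (2 * ⟪m, v⟫_ℝ) • n)) 0 := by
    have : HasFDerivAt p p' (f 0) := by rw [hf0]; exact hp
    exact this.comp_hasDerivAt 0 hfd
  have h2 := (h1.congr_of_eventuallyEq hconst.symm).unique (hasDerivAt_const (0 : ℝ) (p x))
  rw [map_sub, map_smul, map_smul, smul_eq_mul, smul_eq_mul] at h2
  linarith

/-! ### the function of one variable -/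

/-- the five-parameter family of functions -/
noncomputable def F5 (a0 a1 a2 b1 b2 t : ℝ) : ℝ :=
  a0 + a1 * Real.cos t + a2 * Real.sin t + t * (b1 * Real.cos t + b2 * Real.sin t)

lemma F5_deriv (a0 a1 a2 b1 b2 t : ℝ) :
    HasDerivAt (F5 a0 a1 a2 b1 b2) (F5 0 (a2 + b1) (b2 - a1) b2 (-b1) t) t := by
  have hc := Real.hasDerivAt_cos t
  have hs := Real.hasDerivAt_sin t
  have h := (((hasDerivAt_const t a0).add (hc.const_mul a1)).add (hs.const_mul a2)).add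
    ((hasDerivAt_id t).mul ((hc.const_mul b1).add (hs.const_mul b2)))
  refine h.congr_deriv ?_
  simp [F5]
  ring

lemma F5_step {a0 a1 a2 b1 b2 : ℝ} (h : F5 a0 a1 a2 b1 b2 =ᶠ[𝓝 0] fun _ => 0) :
    F5 0 (a2 + b1) (b2 - a1) b2 (-b1) =ᶠ[𝓝 0] fun _ => 0 := by
  have h1 := h.eventuallyEq_nhds
  filter_upwards [h1] with t ht
  have h2 := (F5_deriv a0 a1 a2 b1 b2 t).congr_of_eventuallyEq ht.symm
  exact h2.unique (hasDerivAt_const t (0 : ℝ))

lemma F5_zero {a0 a1 a2 b1 b2 : ℝ} (h : F5 a0 a1 a2 b1 b2 =ᶠ[𝓝 0] fun _ => 0) : a0 + a1 = 0 := by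
  have := h.eq_of_nhds
  simpa [F5] using this

lemma F5_all {a0 a1 a2 b1 b2 : ℝ} (h : F5 a0 a1 a2 b1 b2 =ᶠ[𝓝 0] fun _ => 0) :
    a0 = 0 ∧ b1 = 0 ∧ b2 = 0 := by
  have h1 := F5_step h
  have h2 := F5_step h1
  have h3 := F5_step h2
  have h4 := F5_step h3
  have e0 := F5_zero h
  have e1 := F5_zero h1
  have e2 := F5_zero h2
  have e3 := F5_zero h3
  have e4 := F5_zero h4
  refine ⟨by linarith, by linarith, by linarith⟩

/-! ### the helix -/

/-- the helix -/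
noncomputable def hx (t : ℝ) : E3 := !₂[Real.cos t, Real.sin t, -t]

lemma hx_cont : Continuous hx := by
  unfold hx
  fun_prop

lemma hx_zero : hx 0 = !₂[1, 0, 0] := by
  ext i
  fin_cases i <;> simp [hx]

lemma hx_rr (t : ℝ) : rr (hx t) = 1 := by
  simp [rr, hx]

lemma hx_ee {t : ℝ} (h : |t| < Real.pi / 2) : ee (hx t) = 0 := by
  rw [abs_lt] at h
  have : Real.sin t / Real.cos t = Real.tan t := (Real.tan_eq_sin_div_cos t).symm
  simp [ee, hx, this, Real.arctan_tan h.1 h.2]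

variable {d : Data} (σ : Sol d)

lemma hx_dom {t : ℝ} (h : |t| < Real.pi / 2) : hx t ∈ dom σ := by
  refine ⟨?_, ?_⟩
  · rw [abs_lt] at h
    exact Real.cos_pos_of_mem_Ioo ⟨h.1, h.2⟩
  · rw [hx_rr, hx_ee h]
    exact σ.h10

lemma hx_pp {t : ℝ} (h : |t| < Real.pi / 2) : pp σ (hx t) = 1 := by
  unfold pp
  rw [hx_rr, hx_ee h, σ.hP1]

lemma hx_S {t : ℝ} (h : |t| < Real.pi / 2) : SX σ (hx t) = 5 / 2 := by
  unfold SX
  rw [hx_rr, hx_pp σ h, SS_one]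

lemma hx_q {t : ℝ} (h : |t| < Real.pi / 2) : qX σ (hx t) = 1 := by
  unfold qX QQ bb cc
  rw [hx_rr, hx_pp σ h, d.hA1, d.hB1]
  norm_num

lemma hx_deriv {t : ℝ} (h : |t| < Real.pi / 2) :
    HasFDerivAt (pp σ) (L3 (Real.cos t - √(5 / 2) * Real.sin t)
      (Real.sin t + √(5 / 2) * Real.cos t) √(5 / 2)) (hx t) := by
  have := pp_deriv σ (hx_dom σ h)
  rw [hx_rr, hx_q σ h] at this
  unfold sX at this
  rw [hx_S σ h] at this
  simpa [hx] using this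

lemma exists_ball : ∃ r > 0, ball (hx 0) r ⊆ dom σ := by
  have h0 : hx 0 ∈ dom σ := hx_dom σ (by simp [Real.pi_pos])
  have h1 : ∀ᶠ X in 𝓝 (hx 0), 0 < X 0 := by
    have : ContinuousAt (fun X : E3 => X 0) (hx 0) := (coord_deriv 0 (hx 0)).continuousAt
    exact this.eventually_const_lt h0.1
  have h2 : ∀ᶠ X in 𝓝 (hx 0), (rr X, ee X) ∈ σ.N := by
    have : ContinuousAt (fun X : E3 => (rr X, ee X)) (hx 0) :=
      ((rr_deriv (hx 0)).continuousAt).prodMk ((ee_deriv (hx 0) h0.1).continuousAt)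
    exact this.eventually_mem (σ.hN.mem_nhds h0.2)
  exact Metric.eventually_nhds_iff_ball.1 (h1.and h2)

theorem no_axis {U : Set E3} (hU : IsOpen U) (h0 : hx 0 ∈ U) {c w : E3}
    (hw : w ≠ 0)
    (H : ∀ R : E3 ≃ᵃⁱ[ℝ] E3, (∀ t : ℝ, R (c + t • w) = c + t • w) →
      LinearMap.det (R.linearIsometryEquiv.toLinearEquiv : E3 →ₗ[ℝ] E3) = 1 →
      ∀ x ∈ U, R x ∈ U → pp σ (R x) = pp σ x) : False := by
  obtain ⟨n, m, hn, hm, hnm, hnw, hmw⟩ := exists_frame hw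
  have hspan : ∀ ν ∈ Submodule.span ℝ {n, m}, ⟪ν, w⟫_ℝ = 0 := by
    intro ν hν
    rw [Submodule.mem_span_pair] at hν
    obtain ⟨α, β, rfl⟩ := hν
    rw [inner_add_left, inner_smul_left, inner_smul_left, hnw, hmw]
    simp
  have key : ∀ᶠ t in 𝓝 (0 : ℝ), ⟪n, hx t - c⟫_ℝ * (L3 (Real.cos t - √(5 / 2) * Real.sin t)
      (Real.sin t + √(5 / 2) * Real.cos t) √(5 / 2)) m - ⟪m, hx t - c⟫_ℝ *
      (L3 (Real.cos t - √(5 / 2) * Real.sin t)
      (Real.sin t + √(5 / 2) * Real.cos t) √(5 / 2)) n = 0 := by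
    have h1 : ∀ᶠ t in 𝓝 (0 : ℝ), hx t ∈ U := hx_cont.continuousAt.eventually_mem (hU.mem_nhds h0)
    have h2 : ∀ᶠ t in 𝓝 (0 : ℝ), |t| < Real.pi / 2 := by
      have : ContinuousAt (fun t : ℝ => |t|) 0 := continuous_abs.continuousAt
      apply this.eventually_lt_const
      simp [Real.pi_pos]
    filter_upwards [h1, h2] with t ht ht2
    refine infinitesimal hU hn hm hnm ?_ ht (hx_deriv σ ht2)
    intro ν ν' hν hν' hs hs' x hx hRx
    exact H _ (rot_fix hν hν' (hspan _ hs) (hspan _ hs')) (rot_det hν hν') x hx hRx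
  set s := √(5 / 2) with hs
  have hs2 : s ^ 2 = 5 / 2 := Real.sq_sqrt (by norm_num)
  have hspos : 0 < s := Real.sqrt_pos.2 (by norm_num)
  obtain ⟨n0, en0⟩ : ∃ r, n 0 = r := ⟨_, rfl⟩
  obtain ⟨n1, en1⟩ : ∃ r, n 1 = r := ⟨_, rfl⟩
  obtain ⟨n2, en2⟩ : ∃ r, n 2 = r := ⟨_, rfl⟩
  obtain ⟨m0, em0⟩ : ∃ r, m 0 = r := ⟨_, rfl⟩
  obtain ⟨m1, em1⟩ : ∃ r, m 1 = r := ⟨_, rfl⟩
  obtain ⟨m2, em2⟩ : ∃ r, m 2 = r := ⟨_, rfl⟩
  obtain ⟨c0, ec0⟩ : ∃ r, c 0 = r := ⟨_, rfl⟩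
  obtain ⟨c1, ec1⟩ : ∃ r, c 1 = r := ⟨_, rfl⟩
  obtain ⟨c2, ec2⟩ : ∃ r, c 2 = r := ⟨_, rfl⟩
  have q1 : n0 ^ 2 + n1 ^ 2 + n2 ^ 2 = 1 := by
    have : ‖n‖ ^ 2 = 1 := by rw [hn]; norm_num
    rw [EuclideanSpace.real_norm_sq_eq, Fin.sum_univ_three, en0, en1, en2] at this
    exact this
  have q2 : m0 ^ 2 + m1 ^ 2 + m2 ^ 2 = 1 := by
    have : ‖m‖ ^ 2 = 1 := by rw [hm]; norm_num
    rw [EuclideanSpace.real_norm_sq_eq, Fin.sum_univ_three, em0, em1, em2] at this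
    exact this
  have q3 : n0 * m0 + n1 * m1 + n2 * m2 = 0 := by
    rw [PiLp.inner_apply, Fin.sum_univ_three] at hnm
    simp only [RCLike.inner_apply, conj_trivial, en0, en1, en2, em0, em1, em2] at hnm
    linarith
  set W0 := n1 * m2 - n2 * m1 with hW0
  set W1 := n2 * m0 - n0 * m2 with hW1
  set W2 := n0 * m1 - n1 * m0 with hW2
  have q4 : W0 ^ 2 + W1 ^ 2 + W2 ^ 2 = 1 := by
    have : W0 ^ 2 + W1 ^ 2 + W2 ^ 2 = (n0 ^ 2 + n1 ^ 2 + n2 ^ 2) * (m0 ^ 2 + m1 ^ 2 + m2 ^ 2)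
        - (n0 * m0 + n1 * m1 + n2 * m2) ^ 2 := by
      rw [hW0, hW1, hW2]; ring
    rw [this, q1, q2, q3]; norm_num
  have hF : F5 (-W0 * c1 * s + W1 * c0 * s + W2 * s)
      (W0 * c2 * s - W1 * s - W1 * c2 - W2 * c0 * s + W2 * c1)
      (W0 * s + W0 * c2 + W1 * c2 * s - W2 * c0 - W2 * c1 * s)
      (W0 * s - W1) (W0 + W1 * s) =ᶠ[𝓝 0] fun _ => 0 := by
    filter_upwards [key] with t ht
    rw [PiLp.inner_apply, PiLp.inner_apply, Fin.sum_univ_three, Fin.sum_univ_three] at ht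
    have x0 : (hx t - c) 0 = Real.cos t - c0 := by rw [← ec0]; rfl
    have x1 : (hx t - c) 1 = Real.sin t - c1 := by rw [← ec1]; rfl
    have x2 : (hx t - c) 2 = -t - c2 := by rw [← ec2]; rfl
    simp only [RCLike.inner_apply, conj_trivial, L3_apply, en0, en1, en2, em0, em1, em2, x0, x1,
      x2] at ht
    have hcs := Real.sin_sq_add_cos_sq t
    rw [F5, hW0, hW1, hW2]
    linear_combination ht - s * (n0 * m1 - n1 * m0) * hcs
  obtain ⟨r1, r2, r3⟩ := F5_all hF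
  have t0 : W0 = 0 := by
    have : W0 * (1 + s ^ 2) = 0 := by linear_combination r3 + s * r2
    have h2 : (1 + s ^ 2) ≠ 0 := by positivity
    exact (mul_eq_zero.1 this).resolve_right h2
  have t1 : W1 = 0 := by rw [t0] at r2; linarith
  have t2 : W2 = 0 := by
    rw [t0, t1] at r1
    have : W2 * s = 0 := by linarith
    exact (mul_eq_zero.1 this).resolve_right hspos.ne'
  rw [t0, t1, t2] at q4
  norm_num at q4

end Pool.Agent.H123R3.G
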