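import Mathlib

/-! # The ordinary differential equations -/

set_option autoImplicit false

open Set Metric Filter Topology
open scoped ContDiff

namespace Pool.Agent.H123R3.G

/-- determinant of the linear system -/
def Dt (t a b : ℝ) : ℝ :=
  (-6 * t - (b - a)) * (-6 * t - 2 * (b - a) * a) - (b - a) * (2 * (b - a) * b)

/-- first numerator -/
noncomputable def N1 (t a b : ℝ) : ℝ :=
  (1 / 2 + a) * (-6 * t - 2 * (b - a) * a) - (b - a) * (6 * t - 2 * a ^ 2 - b)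

/-- second numerator -/
noncomputable def N2 (t a b : ℝ) : ℝ :=
  (-6 * t - (b - a)) * (6 * t - 2 * a ^ 2 - b) - 2 * (b - a) * b * (1 / 2 + a)

lemma sys1 {t a b : ℝ} (h : Dt t a b ≠ 0) :
    -6 * t * (N1 t a b / Dt t a b) + (b - a) * (N2 t a b / Dt t a b - N1 t a b / Dt t a b) =
      1 / 2 + a := by
  have : -6 * t * (N1 t a b / Dt t a b) + (b - a) * (N2 t a b / Dt t a b - N1 t a b / Dt t a b) =
    (-6 * t * N1 t a b + (b - a) * (N2 t a b - N1 t a b)) / Dt t a b := by ring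
  rw [this, div_eq_iff h]
  unfold N1 N2 Dt
  ring

lemma sys2 {t a b : ℝ} (h : Dt t a b ≠ 0) :
    -6 * t * (N2 t a b / Dt t a b) -
      2 * (b - a) * (a * (N2 t a b / Dt t a b) - b * (N1 t a b / Dt t a b)) =
      6 * t - 2 * a ^ 2 - b := by
  have : -6 * t * (N2 t a b / Dt t a b) -
      2 * (b - a) * (a * (N2 t a b / Dt t a b) - b * (N1 t a b / Dt t a b)) =
    (-6 * t * N2 t a b - 2 * (b - a) * (a * N2 t a b - b * N1 t a b)) / Dt t a b := by ring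
  rw [this, div_eq_iff h]
  unfold N1 N2 Dt
  ring

/-- the vector field -/
noncomputable def vf (x : ℝ × ℝ × ℝ) : ℝ × ℝ × ℝ :=
  (1, N1 x.1 x.2.1 x.2.2 / Dt x.1 x.2.1 x.2.2, N2 x.1 x.2.1 x.2.2 / Dt x.1 x.2.1 x.2.2)

lemma Dt_smooth : ContDiff ℝ ∞ fun x : ℝ × ℝ × ℝ => Dt x.1 x.2.1 x.2.2 := by unfold Dt; fun_prop

lemma vf_smooth {x : ℝ × ℝ × ℝ} (h : Dt x.1 x.2.1 x.2.2 ≠ 0) : ContDiffAt ℝ ∞ vf x := by
  have h1 : ContDiffAt ℝ ∞ (fun x : ℝ × ℝ × ℝ => N1 x.1 x.2.1 x.2.2) x := by unfold N1; fun_prop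
  have h2 : ContDiffAt ℝ ∞ (fun x : ℝ × ℝ × ℝ => N2 x.1 x.2.1 x.2.2) x := by unfold N2; fun_prop
  have h3 := Dt_smooth.contDiffAt (x := x)
  exact contDiffAt_const.prodMk ((h1.div h3 h).prodMk (h2.div h3 h))

/-- smoothness of integral curves -/
lemma smooth_curve {α : ℝ → ℝ × ℝ × ℝ} {I : Set ℝ} (hI : IsOpen I)
    (h1 : ∀ t ∈ I, HasDerivAt α (vf (α t)) t)
    (h2 : ∀ t ∈ I, Dt (α t).1 (α t).2.1 (α t).2.2 ≠ 0) : ContDiffOn ℝ ∞ α I := by
  have key : ∀ n : ℕ, ContDiffOn ℝ n α I := by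
    intro n
    induction n with
    | zero =>
      rw [Nat.cast_zero, contDiffOn_zero]
      exact fun t ht => (h1 t ht).continuousAt.continuousWithinAt
    | succ n ih =>
      rw [Nat.cast_add, Nat.cast_one, contDiffOn_succ_iff_deriv_of_isOpen hI]
      refine ⟨fun t ht => (h1 t ht).differentiableAt.differentiableWithinAt, by simp, ?_⟩
      have : ContDiffOn ℝ n (fun t => vf (α t)) I := by
        intro t ht
        have := ((vf_smooth (h2 t ht)).of_le (m := (n : WithTop ℕ∞)) (by exact_mod_cast le_top))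
        exact this.comp_contDiffWithinAt t (ih t ht)
      exact this.congr fun t ht => (h1 t ht).deriv
  exact contDiffOn_infty.2 key

theorem exists_AB : ∃ (ε : ℝ) (A B A' B' : ℝ → ℝ), 0 < ε ∧ A 1 = 0 ∧ B 1 = 0 ∧
    ContDiffOn ℝ ∞ A (Ioo (1 - ε) (1 + ε)) ∧ ContDiffOn ℝ ∞ B (Ioo (1 - ε) (1 + ε)) ∧
    ∀ t ∈ Ioo (1 - ε) (1 + ε), HasDerivAt A (A' t) t ∧ HasDerivAt B (B' t) t ∧
      -6 * t * A' t + (B t - A t) * (B' t - A' t) = 1 / 2 + A t ∧
      -6 * t * B' t - 2 * (B t - A t) * (A t * B' t - B t * A' t) = 6 * t - 2 * A t ^ 2 - B t := by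
  have h0 : Dt (1 : ℝ) 0 0 ≠ 0 := by unfold Dt; norm_num
  have hv : ContDiffAt ℝ 1 vf ((1 : ℝ), (0 : ℝ), (0 : ℝ)) :=
    (vf_smooth (x := (1, 0, 0)) h0).of_le (by exact_mod_cast le_top)
  obtain ⟨α, hα1, ε, hε, hα⟩ :=
    hv.exists_forall_mem_closedBall_exists_eq_forall_mem_Ioo_hasDerivAt₀ 1
  have h1m : (1 : ℝ) ∈ Ioo (1 - ε) (1 + ε) := ⟨by linarith, by linarith⟩
  have hcont : ContinuousAt α 1 := (hα 1 h1m).continuousAt
  have hne : ∀ᶠ t in 𝓝 (1 : ℝ), Dt (α t).1 (α t).2.1 (α t).2.2 ≠ 0 := by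
    have hc : ContinuousAt (fun t => Dt (α t).1 (α t).2.1 (α t).2.2) 1 :=
      (Dt_smooth.continuous.continuousAt (x := α 1)).comp hcont
    apply hc.eventually_ne
    rw [hα1]; exact h0
  obtain ⟨δ, hδ, hδ2⟩ := Metric.eventually_nhds_iff.1 hne
  set η := min ε δ with hη
  have hη0 : 0 < η := by positivity
  have hsub : ∀ t ∈ Ioo (1 - η) (1 + η), t ∈ Ioo (1 - ε) (1 + ε) := fun t ht =>
    ⟨by linarith [ht.1, min_le_left ε δ], by linarith [ht.2, min_le_left ε δ]⟩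
  have hD : ∀ t ∈ Ioo (1 - η) (1 + η), Dt (α t).1 (α t).2.1 (α t).2.2 ≠ 0 := by
    intro t ht
    apply hδ2
    rw [Real.dist_eq, abs_lt]
    exact ⟨by linarith [ht.1, min_le_right ε δ], by linarith [ht.2, min_le_right ε δ]⟩
  have hd : ∀ t ∈ Ioo (1 - η) (1 + η), HasDerivAt α (vf (α t)) t := fun t ht => hα t (hsub t ht)
  have hd1 : ∀ t ∈ Ioo (1 - η) (1 + η), HasDerivAt (fun s => (α s).1) 1 t := fun t ht =>
    (hasFDerivAt_fst (𝕜 := ℝ) (p := α t)).comp_hasDerivAt t (hd t ht)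
  have hd2 : ∀ t ∈ Ioo (1 - η) (1 + η), HasDerivAt (fun s => (α s).2) (vf (α t)).2 t := fun t ht =>
    (hasFDerivAt_snd (𝕜 := ℝ) (p := α t)).comp_hasDerivAt t (hd t ht)
  have hdA : ∀ t ∈ Ioo (1 - η) (1 + η), HasDerivAt (fun s => (α s).2.1) (vf (α t)).2.1 t := by
    intro t ht
    have h := (ContinuousLinearMap.fst ℝ ℝ ℝ).hasFDerivAt.comp_hasDerivAt t (hd2 t ht)
    exact h
  have hdB : ∀ t ∈ Ioo (1 - η) (1 + η), HasDerivAt (fun s => (α s).2.2) (vf (α t)).2.2 t := by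
    intro t ht
    have h := (ContinuousLinearMap.snd ℝ ℝ ℝ).hasFDerivAt.comp_hasDerivAt t (hd2 t ht)
    exact h
  have h1m' : (1 : ℝ) ∈ Ioo (1 - η) (1 + η) := ⟨by linarith, by linarith⟩
  have hid : ∀ t ∈ Ioo (1 - η) (1 + η), (α t).1 = t := by
    intro t ht
    refine isOpen_Ioo.eqOn_of_deriv_eq (f := fun s => (α s).1) (g := fun s => s)
      isPreconnected_Ioo (fun s hs => (hd1 s hs).differentiableAt.differentiableWithinAt)
      differentiableOn_id (fun s hs => ?_) h1m' (by simp only [hα1]) ht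
    rw [(hd1 s hs).deriv]
    exact (deriv_id s).symm
  have hs := smooth_curve isOpen_Ioo hd hD
  refine ⟨η, fun s => (α s).2.1, fun s => (α s).2.2, fun t => (vf (α t)).2.1,
    fun t => (vf (α t)).2.2, hη0, by simp only [hα1], by simp only [hα1], ?_, ?_, ?_⟩
  · exact (contDiff_fst.comp contDiff_snd).comp_contDiffOn hs
  · exact (contDiff_snd.comp contDiff_snd).comp_contDiffOn hs
  · intro t ht
    have e1 := sys1 (hD t ht)
    have e2 := sys2 (hD t ht)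
    have e3 := hid t ht
    refine ⟨hdA t ht, hdB t ht, ?_, ?_⟩
    · simp only [vf]
      rw [e3] at e1 ⊢
      exact e1
    · simp only [vf]
      rw [e3] at e2 ⊢
      exact e2

end Pool.Agent.H123R3.G
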