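import Pool.Agent.H123R3.G.Ode

/-! # The potential and its inverse -/

set_option autoImplicit false

open Set Metric Filter Topology
open scoped ContDiff

namespace Pool.Agent.H123R3.G

/-- linear forms on the plane -/
noncomputable def L2 (a b : ℝ) : ℝ × ℝ →L[ℝ] ℝ :=
  a • ContinuousLinearMap.fst ℝ ℝ ℝ + b • ContinuousLinearMap.snd ℝ ℝ ℝ

@[simp] lemma L2_apply (a b : ℝ) (v : ℝ × ℝ) : L2 a b v = a * v.1 + b * v.2 := by
  simp [L2]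

section fns

variable (A B : ℝ → ℝ)

noncomputable def bb (ρ t : ℝ) : ℝ := B t - ρ / 2
noncomputable def cc (ρ t : ℝ) : ℝ := A t - ρ / 2
noncomputable def SS (ρ t : ℝ) : ℝ := ρ * (3 * t) - bb B ρ t ^ 2 - ρ * cc A ρ t ^ 2
noncomputable def QQ (ρ t : ℝ) : ℝ := -bb B ρ t - ρ * cc A ρ t

end fns

/-- the standing data -/
structure Data where
  ε : ℝ
  A : ℝ → ℝ
  B : ℝ → ℝ
  A' : ℝ → ℝ
  B' : ℝ → ℝ
  hε : 0 < ε
  hA1 : A 1 = 0
  hB1 : B 1 = 0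
  hAs : ContDiffOn ℝ ∞ A (Ioo (1 - ε) (1 + ε))
  hBs : ContDiffOn ℝ ∞ B (Ioo (1 - ε) (1 + ε))
  hA : ∀ t ∈ Ioo (1 - ε) (1 + ε), HasDerivAt A (A' t) t
  hB : ∀ t ∈ Ioo (1 - ε) (1 + ε), HasDerivAt B (B' t) t
  e1 : ∀ t ∈ Ioo (1 - ε) (1 + ε), -6 * t * A' t + (B t - A t) * (B' t - A' t) = 1 / 2 + A t
  e2 : ∀ t ∈ Ioo (1 - ε) (1 + ε),
    -6 * t * B' t - 2 * (B t - A t) * (A t * B' t - B t * A' t) = 6 * t - 2 * A t ^ 2 - B t

lemma exists_data : Nonempty Data := by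
  obtain ⟨ε, A, B, A', B', h1, h2, h3, h4, h5, h6⟩ := exists_AB
  exact ⟨⟨ε, A, B, A', B', h1, h2, h3, h4, h5, fun t ht => (h6 t ht).1, fun t ht => (h6 t ht).2.1,
    fun t ht => (h6 t ht).2.2.1, fun t ht => (h6 t ht).2.2.2⟩⟩

variable (d : Data)

/-- partial derivatives of `S` -/
noncomputable def Sr (ρ t : ℝ) : ℝ := 3 * t + bb d.B ρ t - cc d.A ρ t ^ 2 + ρ * cc d.A ρ t
noncomputable def St (ρ t : ℝ) : ℝ :=
  3 * ρ - 2 * bb d.B ρ t * d.B' t - 2 * ρ * cc d.A ρ t * d.A' t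

lemma ident {ρ t : ℝ} (ht : t ∈ Ioo (1 - d.ε) (1 + d.ε)) :
    2 * SS d.A d.B ρ t * (d.B' t + ρ * d.A' t) + 2 * ρ * Sr d ρ t + QQ d.A d.B ρ t * St d ρ t = 0 := by
  have h1 := d.e1 t ht
  have h2 := d.e2 t ht
  unfold SS Sr St QQ bb cc
  linear_combination (-ρ ^ 2) * h1 + (-ρ) * h2

lemma SS_deriv {w : ℝ × ℝ} (ht : w.2 ∈ Ioo (1 - d.ε) (1 + d.ε)) :
    HasFDerivAt (fun w : ℝ × ℝ => SS d.A d.B w.1 w.2) (L2 (Sr d w.1 w.2) (St d w.1 w.2)) w := by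
  have hA : HasFDerivAt (fun w : ℝ × ℝ => d.A w.2) (d.A' w.2 • ContinuousLinearMap.snd ℝ ℝ ℝ) w :=
    (d.hA _ ht).comp_hasFDerivAt w hasFDerivAt_snd
  have hB : HasFDerivAt (fun w : ℝ × ℝ => d.B w.2) (d.B' w.2 • ContinuousLinearMap.snd ℝ ℝ ℝ) w :=
    (d.hB _ ht).comp_hasFDerivAt w hasFDerivAt_snd
  have h1 : HasFDerivAt (fun w : ℝ × ℝ => w.1) (ContinuousLinearMap.fst ℝ ℝ ℝ) w := hasFDerivAt_fst
  have h2 : HasFDerivAt (fun w : ℝ × ℝ => w.2) (ContinuousLinearMap.snd ℝ ℝ ℝ) w := hasFDerivAt_snd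
  have h1' : HasFDerivAt (fun w : ℝ × ℝ => w.1 / 2) ((1 / 2 : ℝ) • ContinuousLinearMap.fst ℝ ℝ ℝ) w := by
    have := h1.const_mul (1 / 2 : ℝ)
    refine this.congr_of_eventuallyEq (Eventually.of_forall fun z => ?_)
    simp only; ring
  have hb := hB.sub h1'
  have hc := hA.sub h1'
  have h3 := ((h1.mul (h2.const_mul 3)).sub (hb.pow 2)).sub (h1.mul (hc.pow 2))
  refine (h3.congr_fderiv ?_).congr_of_eventuallyEq (Eventually.of_forall fun z => ?_)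
  · ext
    · simp [Sr, bb, cc]
      ring
    · simp [St, bb, cc]
      ring
  · simp [SS, bb, cc]

lemma QQ_deriv {w : ℝ × ℝ} (ht : w.2 ∈ Ioo (1 - d.ε) (1 + d.ε)) :
    HasFDerivAt (fun w : ℝ × ℝ => QQ d.A d.B w.1 w.2)
      (L2 (1 / 2 - cc d.A w.1 w.2 + w.1 / 2) (-d.B' w.2 - w.1 * d.A' w.2)) w := by
  have hA : HasFDerivAt (fun w : ℝ × ℝ => d.A w.2) (d.A' w.2 • ContinuousLinearMap.snd ℝ ℝ ℝ) w :=
    (d.hA _ ht).comp_hasFDerivAt w hasFDerivAt_snd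
  have hB : HasFDerivAt (fun w : ℝ × ℝ => d.B w.2) (d.B' w.2 • ContinuousLinearMap.snd ℝ ℝ ℝ) w :=
    (d.hB _ ht).comp_hasFDerivAt w hasFDerivAt_snd
  have h1 : HasFDerivAt (fun w : ℝ × ℝ => w.1) (ContinuousLinearMap.fst ℝ ℝ ℝ) w := hasFDerivAt_fst
  have h1' : HasFDerivAt (fun w : ℝ × ℝ => w.1 / 2) ((1 / 2 : ℝ) • ContinuousLinearMap.fst ℝ ℝ ℝ) w := by
    have := h1.const_mul (1 / 2 : ℝ)
    refine this.congr_of_eventuallyEq (Eventually.of_forall fun z => ?_)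
    simp only; ring
  have hb := hB.sub h1'
  have hc := hA.sub h1'
  have h3 := hb.neg.sub (h1.mul hc)
  refine (h3.congr_fderiv ?_).congr_of_eventuallyEq (Eventually.of_forall fun z => ?_)
  · ext
    · simp [cc]
      ring
    · simp
  · simp [QQ, bb, cc]

/-- the good rectangle -/
structure Box (δ : ℝ) : Prop where
  pos : 0 < δ
  ρ0 : ∀ ρ ∈ Ioo (1 - δ) (1 + δ), 0 < ρ
  t0 : ∀ t ∈ Ioo (1 - δ) (1 + δ), t ∈ Ioo (1 - d.ε) (1 + d.ε)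
  S0 : ∀ ρ ∈ Ioo (1 - δ) (1 + δ), ∀ t ∈ Ioo (1 - δ) (1 + δ), 0 < SS d.A d.B ρ t

lemma one_mem {δ : ℝ} (h : 0 < δ) : (1 : ℝ) ∈ Ioo (1 - δ) (1 + δ) := ⟨by linarith, by linarith⟩

lemma SS_one : SS d.A d.B 1 1 = 5 / 2 := by
  unfold SS bb cc
  rw [d.hA1, d.hB1]; norm_num

lemma exists_box : ∃ δ, Box d δ := by
  have hc : ContinuousAt (fun w : ℝ × ℝ => SS d.A d.B w.1 w.2) (1, 1) :=
    (SS_deriv d (w := (1, 1)) (one_mem d.hε)).continuousAt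
  have hpos : ∀ᶠ w : ℝ × ℝ in 𝓝 (1, 1), 0 < SS d.A d.B w.1 w.2 := by
    apply hc.eventually_const_lt
    change 0 < SS d.A d.B 1 1
    rw [SS_one]; norm_num
  obtain ⟨η, hη, h⟩ := Metric.eventually_nhds_iff.1 hpos
  refine ⟨min (min η d.ε) 1, ?_, ?_, ?_, ?_⟩
  · have := d.hε
    positivity
  · intro ρ hρ
    have := hρ.1
    have := min_le_right (min η d.ε) 1
    linarith
  · intro t ht
    have h1 := (min_le_left (min η d.ε) 1).trans (min_le_right _ _)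
    exact ⟨by linarith [ht.1], by linarith [ht.2]⟩
  · intro ρ hρ t ht
    have h1 := (min_le_left (min η d.ε) 1).trans (min_le_left _ _)
    refine @h (ρ, t) ?_
    rw [Prod.dist_eq, max_lt_iff, Real.dist_eq, Real.dist_eq, abs_lt, abs_lt]
    exact ⟨⟨by linarith [hρ.1], by linarith [hρ.2]⟩, ⟨by linarith [ht.1], by linarith [ht.2]⟩⟩

/-- the rectangle -/
def Wr (δ : ℝ) : Set (ℝ × ℝ) := Ioo (1 - δ) (1 + δ) ×ˢ Ioo (1 - δ) (1 + δ)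

/-- first component of the form -/
noncomputable def aa (w : ℝ × ℝ) : ℝ :=
  -QQ d.A d.B w.1 w.2 * (2 * w.1)⁻¹ * (√(SS d.A d.B w.1 w.2))⁻¹
/-- second component of the form -/
noncomputable def bf (w : ℝ × ℝ) : ℝ := (√(SS d.A d.B w.1 w.2))⁻¹

lemma L2_eta (f : ℝ × ℝ →L[ℝ] ℝ) {α β : ℝ} (h1 : f (1, 0) = α) (h2 : f (0, 1) = β) : f = L2 α β := by
  ext
  · simp [h1]
  · simp [h2]

lemma form_deriv {δ : ℝ} (hb : Box d δ) {w : ℝ × ℝ} (hw : w ∈ Wr δ) :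
    ∃ α β γ : ℝ, HasFDerivAt (aa d) (L2 α β) w ∧ HasFDerivAt (bf d) (L2 β γ) w := by
  have ht := hb.t0 _ hw.2
  have hρ := hb.ρ0 _ hw.1
  have hS := hb.S0 _ hw.1 _ hw.2
  have hs : 0 < √(SS d.A d.B w.1 w.2) := Real.sqrt_pos.2 hS
  have hss : √(SS d.A d.B w.1 w.2) ^ 2 = SS d.A d.B w.1 w.2 := Real.sq_sqrt hS.le
  have h1 := (SS_deriv d ht).sqrt hS.ne'
  have h2 := QQ_deriv d ht
  have hw1 : HasFDerivAt (fun w : ℝ × ℝ => w.1) (ContinuousLinearMap.fst ℝ ℝ ℝ) w := hasFDerivAt_fst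
  have h3 : HasFDerivAt (fun w : ℝ × ℝ => (2 * w.1)⁻¹) _ w :=
    (hasDerivAt_inv (x := 2 * w.1) (by positivity)).comp_hasFDerivAt w (hw1.const_mul 2)
  have h4 : HasFDerivAt (bf d) _ w := (hasDerivAt_inv hs.ne').comp_hasFDerivAt w h1
  have h5 : HasFDerivAt (aa d) _ w := (h2.neg.mul h3).mul h4
  have hid := ident d (ρ := w.1) ht
  rw [← hss] at hid
  refine ⟨_, _, _, h5.congr_fderiv (L2_eta _ rfl rfl), h4.congr_fderiv (L2_eta _ ?_ rfl)⟩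
  simp only [bf, Pi.mul_apply, Pi.neg_apply, ContinuousLinearMap.add_apply, ContinuousLinearMap.smul_apply,
    ContinuousLinearMap.neg_apply, L2_apply, ContinuousLinearMap.coe_fst', smul_eq_mul]
  set s := √(SS d.A d.B w.1 w.2) with hsdef
  field_simp
  linear_combination (-w.1) * hid

end Pool.Agent.H123R3.G
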